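import Pool.Agent.Y116.UV.Main

/-!
# Étale cohomology of Bloch's cycle complexes in negative weights: definitions
-/

set_option autoImplicit false

open CategoryTheory AlgebraicGeometry MvPolynomial

namespace Pool.Agent.Y111.WM

open Pool.Agent.Y116.UV

/-- Data of the étale cohomology of Bloch's cycle complexes: `H X n i` is `H^i(X_et, ℤ^c(n))` for a
scheme `X` over `ℤ`. -/
structure EtCoh where
  H : Sch ℤ → ℤ → ℤ → Type
  [grp : ∀ X n i, AddCommGroup (H X n i)]

attribute [instance] EtCoh.grp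

/-- Homomorphisms of cohomology groups. -/
structure Map (T : EtCoh) (X : Sch ℤ) (n i : ℤ) (Y : Sch ℤ) (m j : ℤ) where
  f : T.H X n i → T.H Y m j
  add : ∀ x y, f (x + y) = f x + f y

/-- Exactness. -/
def Ex {T : EtCoh} {X Y W : Sch ℤ} {n i m j l k : ℤ} (a : Map T X n i Y m j)
    (b : Map T Y m j W l k) : Prop :=
  ∀ y, b.f y = 0 ↔ ∃ x, a.f x = y

variable (T : EtCoh)

/-- The maps `f`, `g`, `d` form a long exact sequence
`⋯ → H^i(Z) → H^i(X) → H^i(U) → H^(i+1)(Z) → ⋯` in the weight `n`. -/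
def IsLong (Z X U : Sch ℤ) (n : ℤ) (f : ∀ i, Map T Z n i X n i) (g : ∀ i, Map T X n i U n i)
    (d : ∀ i, Map T U n i Z n (i + 1)) : Prop :=
  ∀ i, Ex (f i) (g i) ∧ Ex (g i) (d i) ∧ Ex (d i) (f (i + 1))

/-- Exactness of the localisation sequences in the weights `n < 0`, for a closed immersion `a` into an
arithmetic scheme and an open immersion `b` onto its complement. -/
def Localization : Prop :=
  ∀ {Z X U : Sch ℤ} (a : Z ⟶ X) (b : U ⟶ X), FT True X → IsTriple a b →
    ∀ n < 0, ∃ f g d, IsLong T Z X U n f g d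

/-- Isomorphic arithmetic schemes have isomorphic cohomology groups. -/
def IsoInvariance : Prop :=
  ∀ {X Y : Sch ℤ}, FT True X → Nonempty (X ≅ Y) → ∀ n < 0, ∀ i,
    ∃ s : Map T X n i Y n i, Function.Bijective s.f

/-- `H^i(X × 𝔸¹, ℤ^c(n)) = H^(i+2)(X, ℤ^c(n-1))` for affine `X` and `n < 0`. -/
def LineFormula : Prop :=
  ∀ (A : Type) [CommRing A] [Algebra ℤ A] [Algebra.FiniteType ℤ A], ∀ n < 0, ∀ i,
    ∃ s : Map T (aff ℤ (Polynomial A)) n i (aff ℤ A) (n - 1) (i + 2), Function.Bijective s.f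

/-- The maps `f`, `g` form a short exact sequence. -/
def IsShortExact {T : EtCoh} {X Y W : Sch ℤ} {n i m j l k : ℤ} (f : Map T X n i Y m j)
    (g : Map T Y m j W l k) : Prop :=
  Function.Injective f.f ∧ Ex f g ∧ Function.Surjective g.f

/-- The short exact sequences
`0 → H^(i+2)(X, ℤ^c(n-1)) → H^i(X × 𝔾_m, ℤ^c(n)) → H^(i+1)(X, ℤ^c(n)) → 0` for affine `X` and
`n < 0`. -/
def TorusFormula : Prop :=
  ∀ (A : Type) [CommRing A] [Algebra ℤ A] [Algebra.FiniteType ℤ A], ∀ n < 0, ∀ i,
    ∃ (f : Map T (aff ℤ A) (n - 1) (i + 2) (aff ℤ (LaurentPolynomial A)) n i)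
      (g : Map T (aff ℤ (LaurentPolynomial A)) n i (aff ℤ A) n (i + 1)), IsShortExact f g

/-- Known properties of the étale cohomology of Bloch's cycle complexes of arithmetic schemes in the
weights `n < 0` (Geisser), and finite generation for `Spec ℤ` (Morin). -/
structure IsEtCoh : Prop where
  iso : IsoInvariance T
  localization : Localization T
  line : LineFormula T
  torus : TorusFormula T
  base : ∀ n < 0, ∀ i, AddGroup.FG (T.H (aff ℤ ℤ) n i)

/-- The conjecture: `H^i(X_et, ℤ^c(n))` is finitely generated for all arithmetic schemes `X` (separated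
and of finite type over `ℤ`), all `n < 0` and all `i`. -/
def Conjecture : Prop :=
  ∀ X : Sch ℤ, FT True X → ∀ n < 0, ∀ i, AddGroup.FG (T.H X n i)

variable {a b c : ℕ}

/-- The bilinear form `∑ x_i y_j` over the pairs `(i, j)` in `H k`. -/
noncomputable def bilEq (H : Fin a → Finset (Fin b × Fin c)) (k : Fin a) :
    MvPolynomial (Fin b ⊕ Fin c) ℤ :=
  ∑ h ∈ H k, X (Sum.inl h.1) * X (Sum.inr h.2)

/-- Each of the bilinear forms has at most three terms. -/
def Short (H : Fin a → Finset (Fin b × Fin c)) : Prop := ∀ k, (H k).card ≤ 3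

/-- The closed subscheme of the affine space `𝔸^(b+c)` over `ℤ` given by the bilinear equations
`∑_{(i, j) ∈ H k} x_i y_j = 0` for all `k`. -/
noncomputable def bilS (H : Fin a → Finset (Fin b × Fin c)) : Sch ℤ :=
  aff ℤ (MvPolynomial (Fin b ⊕ Fin c) ℤ ⧸ Ideal.span (Set.range (bilEq H)))

/-- The open complement of `bilS H` in `𝔸^(b+c)`. -/
noncomputable def bilU (H : Fin a → Finset (Fin b × Fin c)) : Sch ℤ :=
  opn (aff ℤ (MvPolynomial (Fin b ⊕ Fin c) ℤ)) (neOpen ℤ (bilEq H))

end Pool.Agent.Y111.WM
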