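import Pool.Agent.Y116.UV.Pres

/-!
# Presentations by sums of at most three monomials

Over `ℤ`, or over a quotient of `ℤ`, every algebra of finite type has a presentation by polynomials which
are sums of at most three different monomials.
-/

set_option autoImplicit false

open MvPolynomial

namespace Pool.Agent.Y111.WM

open Pool.Agent.Y116.UV

variable {R : Type} [CommRing R]

section

variable {n : ℕ} {κ : Type} (E : κ → Finset (Fin n →₀ ℕ)) (M : ℕ)

/-- the variables -/
abbrev V3 (n : ℕ) (κ : Type) (M : ℕ) : Type := Fin n ⊕ Option (κ × Fin (M + 1))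

/-- the list of the monomials -/
noncomputable def ls (k : κ) : List (Fin n →₀ ℕ) := (E k).toList

/-- the partial sums -/
noncomputable def pq (R : Type) [CommRing R] (k : κ) (j : ℕ) : MvPolynomial (Fin n) R :=
  (((ls E k).take j).map fun μ => monomial μ (1 : R)).sum

lemma pq_zero (k : κ) : pq E R k 0 = 0 := by
  rw [pq, List.take_zero, List.map_nil, List.sum_nil]

lemma pq_lt (k : κ) (j : ℕ) (h : j < (ls E k).length) :
    pq E R k (j + 1) = pq E R k j + monomial ((ls E k)[j]) 1 := by
  rw [pq, pq, List.take_succ_eq_append_getElem h, List.map_append, List.sum_append, List.map_singleton,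
    List.sum_singleton]

lemma pq_ge (k : κ) (j : ℕ) (h : (ls E k).length ≤ j) : pq E R k j = ms R (E k) := by
  rw [pq, List.take_of_length_le h, ms, ls, Finset.sum_map_toList]

/-- the exponents of the variable for a partial sum -/
noncomputable def es (n : ℕ) {κ : Type} {M : ℕ} (k : κ) (j : Fin (M + 1)) : V3 n κ M →₀ ℕ :=
  Finsupp.single (Sum.inr (some (k, j))) 1

/-- the exponents of the variable for the constant `-1` -/
noncomputable def ee (n : ℕ) (κ : Type) (M : ℕ) : V3 n κ M →₀ ℕ := Finsupp.single (Sum.inr none) 1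

/-- the exponents of an old monomial -/
noncomputable def em (κ : Type) (M : ℕ) (μ : Fin n →₀ ℕ) : V3 n κ M →₀ ℕ := μ.mapDomain Sum.inl

lemma em_inr (κ : Type) (M : ℕ) (μ : Fin n →₀ ℕ) (o : Option (κ × Fin (M + 1))) :
    em κ M μ (Sum.inr o) = 0 := by
  rw [em, Finsupp.mapDomain_of_notMem_range]
  rintro ⟨i, hi⟩
  cases hi

lemma es_self (k : κ) (j : Fin (M + 1)) : es n k j (Sum.inr (some (k, j))) = 1 :=
  Finsupp.single_eq_same

lemma ee_self : ee n κ M (Sum.inr none) = 1 := Finsupp.single_eq_same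

lemma es_none (k : κ) (j : Fin (M + 1)) : es n k j (Sum.inr none) = 0 :=
  Finsupp.single_eq_of_ne (by simp)

open Classical in
/-- the exponents of the relations -/
noncomputable def rF3 : Unit ⊕ (κ ⊕ (κ ⊕ (κ × Fin M))) → Finset (V3 n κ M →₀ ℕ)
  | Sum.inl _ => {ee n κ M, 0}
  | Sum.inr (Sum.inl k) => {es n k 0}
  | Sum.inr (Sum.inr (Sum.inl k)) => {es n k (Fin.last M)}
  | Sum.inr (Sum.inr (Sum.inr (k, j))) =>
      if h : j.1 < (ls E k).length then
        {es n k j.castSucc, em κ M ((ls E k)[j.1]), ee n κ M + es n k j.succ}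
      else {es n k j.castSucc, ee n κ M + es n k j.succ}

lemma card_rF3 (r : Unit ⊕ (κ ⊕ (κ ⊕ (κ × Fin M)))) : (rF3 E M r).card ≤ 3 := by
  classical
  rcases r with _ | k | k | ⟨k, j⟩
  · exact Finset.card_le_two.trans (by norm_num)
  · exact (Finset.card_singleton _).le.trans (by norm_num)
  · exact (Finset.card_singleton _).le.trans (by norm_num)
  · by_cases h : j.1 < (ls E k).length
    · have h1 : rF3 E M (Sum.inr (Sum.inr (Sum.inr (k, j)))) =
          {es n k j.castSucc, em κ M ((ls E k)[j.1]), ee n κ M + es n k j.succ} := dif_pos h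
      rw [h1]
      exact Finset.card_le_three
    · have h1 : rF3 E M (Sum.inr (Sum.inr (Sum.inr (k, j)))) =
          {es n k j.castSucc, ee n κ M + es n k j.succ} := dif_neg h
      rw [h1]
      exact Finset.card_le_two.trans (by norm_num)

/-- the relations -/
noncomputable def rel3 (R : Type) [CommRing R] (r : Unit ⊕ (κ ⊕ (κ ⊕ (κ × Fin M)))) :
    MvPolynomial (V3 n κ M) R := ms R (rF3 E M r)

/-- the ideal of the relations -/
noncomputable def rI3 (R : Type) [CommRing R] : Ideal (MvPolynomial (V3 n κ M) R) :=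
  Ideal.span (Set.range (rel3 E M R))

variable {B : Type} [CommRing B] [Algebra R B] (χ : MvPolynomial (V3 n κ M) R →ₐ[R] B)

lemma χ3_none : χ (rel3 E M R (Sum.inl ())) = χ (X (Sum.inr none)) + 1 := by
  classical
  rw [rel3, ms, map_sum]
  have h : ee n κ M ≠ 0 := by
    rw [ee, Ne, Finsupp.single_eq_zero]
    exact one_ne_zero
  change ∑ μ ∈ {ee n κ M, 0}, χ (monomial μ 1) = _
  rw [Finset.sum_pair h]
  congr 1
  exact map_one χ

lemma χ3_zero (k : κ) : χ (rel3 E M R (Sum.inr (Sum.inl k))) = χ (X (Sum.inr (some (k, 0)))) := by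
  classical
  rw [rel3, ms, map_sum]
  change ∑ μ ∈ {es n k 0}, χ (monomial μ 1) = _
  rw [Finset.sum_singleton]
  rfl

lemma χ3_last (k : κ) : χ (rel3 E M R (Sum.inr (Sum.inr (Sum.inl k)))) =
    χ (X (Sum.inr (some (k, Fin.last M)))) := by
  classical
  rw [rel3, ms, map_sum]
  change ∑ μ ∈ {es n k (Fin.last M)}, χ (monomial μ 1) = _
  rw [Finset.sum_singleton]
  rfl

lemma χ3_prod (k : κ) (j : Fin (M + 1)) : χ (monomial (ee n κ M + es n k j) 1) =
    χ (X (Sum.inr none)) * χ (X (Sum.inr (some (k, j)))) := by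
  rw [← map_mul, X, X, monomial_mul, one_mul]
  rfl

lemma es_ne_prod (k : κ) (j j' : Fin (M + 1)) : es n k j ≠ ee n κ M + es n k j' := by
  intro h
  have h1 := congrArg (fun f : V3 n κ M →₀ ℕ => f (Sum.inr none)) h
  simp only [Finsupp.add_apply] at h1
  rw [es_none, es_none, ee_self] at h1
  exact absurd h1 (by norm_num)

lemma χ3_lt (k : κ) (j : Fin M) (h : j.1 < (ls E k).length) :
    χ (rel3 E M R (Sum.inr (Sum.inr (Sum.inr (k, j))))) =
      χ (X (Sum.inr (some (k, j.castSucc)))) + (χ (rename Sum.inl (monomial ((ls E k)[j.1]) 1)) +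
        χ (X (Sum.inr none)) * χ (X (Sum.inr (some (k, j.succ))))) := by
  classical
  have h1 : rF3 E M (Sum.inr (Sum.inr (Sum.inr (k, j)))) =
      {es n k j.castSucc, em κ M ((ls E k)[j.1]), ee n κ M + es n k j.succ} := dif_pos h
  rw [rel3, h1, ms, map_sum, Finset.sum_insert, Finset.sum_pair, χ3_prod, rename_monomial]
  · rfl
  · intro h2
    have h3 := congrArg (fun f : V3 n κ M →₀ ℕ => f (Sum.inr none)) h2
    simp only [Finsupp.add_apply] at h3
    rw [em_inr, es_none, ee_self] at h3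
    exact absurd h3 (by norm_num)
  · rw [Finset.mem_insert, Finset.mem_singleton]
    rintro (h2 | h2)
    · have h3 := DFunLike.congr_fun h2 (Sum.inr (some (k, j.castSucc)))
      rw [em_inr, es_self] at h3
      exact absurd h3 (by norm_num)
    · exact es_ne_prod M k _ _ h2

lemma χ3_ge (k : κ) (j : Fin M) (h : (ls E k).length ≤ j.1) :
    χ (rel3 E M R (Sum.inr (Sum.inr (Sum.inr (k, j))))) =
      χ (X (Sum.inr (some (k, j.castSucc)))) +
        χ (X (Sum.inr none)) * χ (X (Sum.inr (some (k, j.succ)))) := by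
  classical
  have h1 : rF3 E M (Sum.inr (Sum.inr (Sum.inr (k, j)))) =
      {es n k j.castSucc, ee n κ M + es n k j.succ} := dif_neg (not_lt.mpr h)
  rw [rel3, h1, ms, map_sum, Finset.sum_pair (es_ne_prod M k _ _), χ3_prod]
  rfl

/-- the substitution of the partial sums -/
noncomputable def sb3 (R : Type) [CommRing R] : MvPolynomial (V3 n κ M) R →ₐ[R] MvPolynomial (Fin n) R :=
  aeval (Sum.elim X fun o => o.elim (-1) fun p => pq E R p.1 p.2)

lemma sb3_e : sb3 E M R (X (Sum.inr none)) = -1 := by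
  rw [sb3, aeval_X]
  rfl

lemma sb3_s (k : κ) (j : Fin (M + 1)) : sb3 E M R (X (Sum.inr (some (k, j)))) = pq E R k j := by
  rw [sb3, aeval_X]
  rfl

lemma sb3_inl (p : MvPolynomial (Fin n) R) : sb3 E M R (rename Sum.inl p) = p := by
  rw [sb3, aeval_rename]
  exact aeval_X_left_apply _

variable (hM : ∀ k, (ls E k).length ≤ M)

include hM in
lemma sb3_rel (r : Unit ⊕ (κ ⊕ (κ ⊕ (κ × Fin M)))) :
    sb3 E M R (rel3 E M R r) ∈ Ideal.span (Set.range fun k => ms R (E k)) := by
  rcases r with _ | k | k | ⟨k, j⟩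
  · rw [χ3_none, sb3_e, neg_add_cancel]
    exact Ideal.zero_mem _
  · rw [χ3_zero, sb3_s]
    change pq E R k 0 ∈ _
    rw [pq_zero]
    exact Ideal.zero_mem _
  · rw [χ3_last, sb3_s]
    change pq E R k M ∈ _
    rw [pq_ge E k M (hM k)]
    exact Ideal.subset_span ⟨k, rfl⟩
  · rcases lt_or_ge j.1 (ls E k).length with h | h
    · rw [χ3_lt E M _ k j h, sb3_s, sb3_s, sb3_e, sb3_inl]
      change pq E R k j.1 + (_ + -1 * pq E R k (j.1 + 1)) ∈ _
      rw [pq_lt E k j.1 h]
      have : pq E R k j.1 + (monomial ((ls E k)[j.1]) 1 +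
          -1 * (pq E R k j.1 + monomial ((ls E k)[j.1]) 1)) = 0 := by ring
      rw [this]
      exact Ideal.zero_mem _
    · rw [χ3_ge E M _ k j h, sb3_s, sb3_s, sb3_e]
      change pq E R k j.1 + -1 * pq E R k (j.1 + 1) ∈ _
      rw [pq_ge E k j.1 h, pq_ge E k (j.1 + 1) (by omega)]
      have : ms R (E k) + -1 * ms R (E k) = 0 := by ring
      rw [this]
      exact Ideal.zero_mem _

lemma mk3_rel (r : Unit ⊕ (κ ⊕ (κ ⊕ (κ × Fin M)))) :
    Ideal.Quotient.mkₐ R (rI3 E M R) (rel3 E M R r) = 0 :=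
  Ideal.Quotient.eq_zero_iff_mem.mpr (Ideal.subset_span ⟨_, rfl⟩)

lemma mk3_e : Ideal.Quotient.mkₐ R (rI3 E M R) (X (Sum.inr none)) = -1 := by
  have h := χ3_none E M (Ideal.Quotient.mkₐ R (rI3 E M R))
  rw [mk3_rel] at h
  linear_combination -h

lemma mk3_s (k : κ) (j : ℕ) (hj : j < M + 1) :
    Ideal.Quotient.mkₐ R (rI3 E M R) (X (Sum.inr (some (k, ⟨j, hj⟩)))) =
      Ideal.Quotient.mkₐ R (rI3 E M R) (rename Sum.inl (pq E R k j)) := by
  induction j with
  | zero =>
    have h := χ3_zero E M (Ideal.Quotient.mkₐ R (rI3 E M R)) k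
    rw [mk3_rel] at h
    rw [pq_zero, map_zero, map_zero]
    exact h.symm
  | succ j ih =>
    have hj' : j < M := by omega
    have h0 := ih (by omega)
    rcases lt_or_ge j (ls E k).length with h | h
    · have h1 := χ3_lt E M (Ideal.Quotient.mkₐ R (rI3 E M R)) k ⟨j, hj'⟩ h
      rw [mk3_rel, mk3_e] at h1
      change 0 = Ideal.Quotient.mkₐ R (rI3 E M R) (X (Sum.inr (some (k, ⟨j, _⟩)))) + (_ +
        -1 * Ideal.Quotient.mkₐ R (rI3 E M R) (X (Sum.inr (some (k, ⟨j + 1, _⟩))))) at h1
      rw [h0] at h1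
      rw [pq_lt E k j h, map_add, map_add]
      linear_combination h1
    · have h1 := χ3_ge E M (Ideal.Quotient.mkₐ R (rI3 E M R)) k ⟨j, hj'⟩ h
      rw [mk3_rel, mk3_e] at h1
      change 0 = Ideal.Quotient.mkₐ R (rI3 E M R) (X (Sum.inr (some (k, ⟨j, _⟩)))) +
        -1 * Ideal.Quotient.mkₐ R (rI3 E M R) (X (Sum.inr (some (k, ⟨j + 1, _⟩)))) at h1
      rw [h0, pq_ge E k j h] at h1
      rw [pq_ge E k (j + 1) (by omega)]
      linear_combination h1

lemma mk3_sb (p : MvPolynomial (V3 n κ M) R) :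
    Ideal.Quotient.mkₐ R (rI3 E M R) (rename Sum.inl (sb3 E M R p)) =
      Ideal.Quotient.mkₐ R (rI3 E M R) p := by
  have h : ((Ideal.Quotient.mkₐ R (rI3 E M R)).comp (rename Sum.inl)).comp (sb3 E M R) =
      Ideal.Quotient.mkₐ R (rI3 E M R) := by
    apply MvPolynomial.algHom_ext
    rintro (i | _ | ⟨k, j⟩)
    · change Ideal.Quotient.mkₐ R (rI3 E M R) (rename Sum.inl (sb3 E M R (X (Sum.inl i)))) = _
      rw [sb3, aeval_X, Sum.elim_inl, rename_X]
    · change Ideal.Quotient.mkₐ R (rI3 E M R) (rename Sum.inl (sb3 E M R (X (Sum.inr none)))) = _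
      rw [sb3_e, mk3_e, map_neg, map_neg, map_one, map_one]
    · change Ideal.Quotient.mkₐ R (rI3 E M R)
        (rename Sum.inl (sb3 E M R (X (Sum.inr (some (k, j)))))) = _
      rw [sb3_s]
      exact (mk3_s E M k j.1 j.2).symm
  exact congrArg (fun f : MvPolynomial (V3 n κ M) R →ₐ[R] _ => f p) h

include hM in
lemma ker_sb3 {A : Type} [CommRing A] [Algebra R A] (φ : MvPolynomial (Fin n) R →ₐ[R] A)
    (hK : RingHom.ker φ = Ideal.span (Set.range fun k => ms R (E k))) :
    RingHom.ker (φ.comp (sb3 E M R)) = rI3 E M R := by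
  apply le_antisymm
  · intro p hp
    have h1 : sb3 E M R p ∈ Ideal.span (Set.range fun k => ms R (E k)) := by
      rw [← hK]
      exact hp
    have h3 : Ideal.span (Set.range fun k => ms R (E k)) ≤
        RingHom.ker ((Ideal.Quotient.mkₐ R (rI3 E M R)).comp (rename Sum.inl)) := by
      rw [Ideal.span_le]
      rintro _ ⟨k, rfl⟩
      change Ideal.Quotient.mkₐ R (rI3 E M R) (rename Sum.inl (ms R (E k))) = 0
      rw [← pq_ge E k M (hM k), ← mk3_s E M k M (Nat.lt_succ_self M)]
      have h := χ3_last E M (Ideal.Quotient.mkₐ R (rI3 E M R)) k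
      rw [mk3_rel] at h
      exact h.symm
    have h4 : Ideal.Quotient.mkₐ R (rI3 E M R) (rename Sum.inl (sb3 E M R p)) = 0 := h3 h1
    rw [mk3_sb] at h4
    exact Ideal.Quotient.eq_zero_iff_mem.mp h4
  · rw [rI3, Ideal.span_le]
    rintro _ ⟨r, rfl⟩
    have h1 := sb3_rel E M hM r (R := R)
    rw [← hK] at h1
    exact h1

end

/-- a sum of at most three different monomials -/
def IsShort {R : Type} [CommRing R] {V : Type} (g : MvPolynomial V R) : Prop :=
  ∃ F : Finset (V →₀ ℕ), F.card ≤ 3 ∧ g = ms R F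

lemma isShort_rename {V W : Type} (e : V ≃ W) {g : MvPolynomial V R} (h : IsShort g) :
    IsShort (rename e g) := by
  classical
  obtain ⟨F, hF, rfl⟩ := h
  refine ⟨F.image (Finsupp.mapDomain e), Finset.card_image_le.trans hF, ?_⟩
  rw [ms, ms, map_sum, Finset.sum_image fun a _ b _ h => Finsupp.mapDomain_injective e.injective h]
  exact Finset.sum_congr rfl fun a _ => rename_monomial e a 1

/-- presentations in any finite set of variables -/
lemma short_of {A : Type} [CommRing A] [Algebra R A] {V ι : Type} [Fintype V] [Fintype ι]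
    (φ : MvPolynomial V R →ₐ[R] A) (g : ι → MvPolynomial V R) (hs : Function.Surjective φ)
    (hK : RingHom.ker φ = Ideal.span (Set.range g)) (hg : ∀ i, IsShort (g i)) :
    ∃ (n : ℕ) (φ : MvPolynomial (Fin n) R →ₐ[R] A) (G : Finset (MvPolynomial (Fin n) R)),
      Function.Surjective φ ∧ RingHom.ker φ = Ideal.span (G : Set (MvPolynomial (Fin n) R)) ∧
      ∀ g ∈ G, IsShort g := by
  classical
  let e : V ≃ Fin (Fintype.card V) := Fintype.equivFin V
  let E : MvPolynomial V R ≃ₐ[R] MvPolynomial (Fin (Fintype.card V)) R := renameEquiv R e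
  let E1 : MvPolynomial V R →+* MvPolynomial (Fin (Fintype.card V)) R :=
    (rename e : MvPolynomial V R →ₐ[R] _).toRingHom
  refine ⟨Fintype.card V, φ.comp (E.symm : _ →ₐ[R] _), Finset.univ.image fun i => E1 (g i),
    ?_, ?_, ?_⟩
  · intro a
    obtain ⟨p, rfl⟩ := hs a
    refine ⟨E p, ?_⟩
    change φ (E.symm (E p)) = φ p
    rw [E.symm_apply_apply]
  · have h1 : ((Finset.univ.image fun i => E1 (g i) : Finset _) :
        Set (MvPolynomial (Fin (Fintype.card V)) R)) = E1 '' Set.range g := by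
      rw [Finset.coe_image, Finset.coe_univ, Set.image_univ, ← Set.range_comp]
      rfl
    rw [h1, ← Ideal.map_span, ← hK]
    ext p
    constructor
    · intro hp
      have h2 : E.symm p ∈ RingHom.ker φ := hp
      have h3 := Ideal.mem_map_of_mem E1 h2
      have h4 : E1 (E.symm p) = p := E.apply_symm_apply p
      rwa [h4] at h3
    · intro hp
      obtain ⟨q, hq, rfl⟩ := (Ideal.mem_map_iff_of_surjective E1
        (fun p => ⟨E.symm p, E.apply_symm_apply p⟩)).mp hp
      change φ (E.symm (E q)) = 0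
      rw [E.symm_apply_apply]
      exact hq
  · intro g' hg'
    obtain ⟨r, -, rfl⟩ := Finset.mem_image.mp hg'
    exact isShort_rename e (hg r)

/-- Over a noetherian ring in which all elements are integers, every algebra of finite type has a
presentation by sums of at most three different monomials. -/
theorem presents_three [IsNoetherianRing R] (hR : Function.Surjective (Int.cast : ℤ → R))
    (A : Type) [CommRing A] [Algebra R A] [Algebra.FiniteType R A] :
    ∃ (n : ℕ) (φ : MvPolynomial (Fin n) R →ₐ[R] A) (G : Finset (MvPolynomial (Fin n) R)),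
      Function.Surjective φ ∧ RingHom.ker φ = Ideal.span (G : Set (MvPolynomial (Fin n) R)) ∧
      ∀ g ∈ G, IsShort g := by
  classical
  obtain ⟨n, φ, G, hs, hK, hc⟩ := presents_zero_one hR A
  let E : G → Finset (Fin n →₀ ℕ) := fun g => g.1.support
  have hE : ∀ g : G, ms R (E g) = g.1 := by
    intro g
    ext m
    rw [coeff_ms]
    split_ifs with h
    · rcases hc g.1 g.2 m with h1 | h1
      · exact absurd h1 (mem_support_iff.mp h)
      · exact h1.symm
    · exact (notMem_support_iff.mp h).symm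
  have hK' : RingHom.ker φ = Ideal.span (Set.range fun k => ms R (E k)) := by
    rw [hK]
    congr 1
    ext x
    constructor
    · intro hx
      exact ⟨⟨x, hx⟩, hE ⟨x, hx⟩⟩
    · rintro ⟨g, rfl⟩
      change ms R (E g) ∈ _
      rw [hE]
      exact g.2
  have hM : ∀ g, (ls E g).length ≤ ∑ g : G, (ls E g).length := fun g =>
    Finset.single_le_sum (f := fun g : G => (ls E g).length) (fun _ _ => Nat.zero_le _)
      (Finset.mem_univ g)
  refine short_of (φ.comp (sb3 E (∑ g : G, (ls E g).length) R))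
    (rel3 E (∑ g : G, (ls E g).length) R) ?_ (ker_sb3 E _ hM φ hK') ?_
  · intro a
    obtain ⟨p, rfl⟩ := hs a
    refine ⟨rename Sum.inl p, ?_⟩
    rw [AlgHom.comp_apply, sb3_inl]
  · exact fun r => ⟨_, card_rF3 E _ r, rfl⟩

end Pool.Agent.Y111.WM
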