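import Pool.Agent.Y111.WM.Defs
import Pool.Agent.Y111.WM.Pres3

/-!
# Finite generation in weight `-1` for bilinear varieties decides all arithmetic schemes
-/

set_option autoImplicit false

open CategoryTheory AlgebraicGeometry MvPolynomial

namespace Pool.Agent.Y111.WM

open Pool.Agent.Y116.UV

section

variable {A B C : Type} [AddCommGroup A] [AddCommGroup B] [AddCommGroup C]

lemma fg_iff (A : Type) [AddCommGroup A] : AddGroup.FG A ↔ Module.Finite ℤ A :=
  Module.Finite.iff_addGroup_fg.symm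

lemma fg_of_surj (f : A →+ B) (hf : Function.Surjective f) (h : AddGroup.FG A) :
    AddGroup.FG B := by
  rw [fg_iff] at h ⊢
  exact Module.Finite.of_surjective f.toIntLinearMap hf

lemma fg_of_exact (f : A →+ B) (g : B →+ C) (hfg : Function.Exact f g) (hA : AddGroup.FG A)
    (hC : AddGroup.FG C) : AddGroup.FG B := by
  rw [fg_iff] at hA hC ⊢
  have h1 : Module.Finite ℤ (LinearMap.range f.toIntLinearMap) := inferInstance
  have h2 : Module.Finite ℤ (LinearMap.range g.toIntLinearMap) := inferInstance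
  have h3 : (LinearMap.ker g.toIntLinearMap) = LinearMap.range f.toIntLinearMap := by
    ext x
    exact (hfg x)
  have h4 : Module.Finite ℤ (LinearMap.ker g.toIntLinearMap) := by
    rw [h3]
    exact h1
  have h5 : (⊤ : Submodule ℤ B).FG := by
    apply Submodule.fg_of_fg_map_of_fg_inf_ker g.toIntLinearMap
    · rw [← LinearMap.range_eq_map]
      exact (Module.Finite.iff_fg).mp h2
    · rw [top_inf_eq]
      exact (Module.Finite.iff_fg).mp h4
  exact ⟨h5⟩

end

variable {T : EtCoh}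

/-- the bundled homomorphism -/
def Map.hom {X Y : Sch ℤ} {n i m j : ℤ} (a : Map T X n i Y m j) : T.H X n i →+ T.H Y m j :=
  AddMonoidHom.mk' a.f a.add

lemma Ex.exact {X Y W : Sch ℤ} {n i m j l k : ℤ} {a : Map T X n i Y m j} {b : Map T Y m j W l k}
    (h : Ex a b) : Function.Exact a.hom b.hom := fun y => h y

lemma fg_equiv {X Y : Sch ℤ} {n i m j : ℤ} (h : ∃ s : Map T X n i Y m j, Function.Bijective s.f)
    (hA : AddGroup.FG (T.H X n i)) : AddGroup.FG (T.H Y m j) := by
  obtain ⟨s, hs⟩ := h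
  exact fg_of_surj s.hom hs.2 hA

lemma fg_equiv' {X Y : Sch ℤ} {n i m j : ℤ} (h : ∃ s : Map T X n i Y m j, Function.Bijective s.f)
    (hB : AddGroup.FG (T.H Y m j)) : AddGroup.FG (T.H X n i) := by
  obtain ⟨s, hs⟩ := h
  have e := AddEquiv.ofBijective s.hom hs
  exact fg_of_surj e.symm.toAddMonoidHom e.symm.surjective hB

/-- finite generation in one weight and one degree -/
abbrev F (T : EtCoh) (n i : ℤ) (X : Sch ℤ) : Prop := AddGroup.FG (T.H X n i)

lemma total (hT : IsEtCoh T) {Z X U : Sch ℤ} (a : Z ⟶ X) (b : U ⟶ X) (hX : FT True X)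
    (h : IsTriple a b) {n i : ℤ} (hn : n < 0) (hZ : F T n i Z) (hU : F T n i U) : F T n i X := by
  obtain ⟨f, g, d, hl⟩ := hT.localization a b hX h n hn
  exact fg_of_exact (f i).hom (g i).hom (hl i).1.exact hZ hU

lemma opened (hT : IsEtCoh T) {Z X U : Sch ℤ} (a : Z ⟶ X) (b : U ⟶ X) (hX : FT True X)
    (h : IsTriple a b) {n i : ℤ} (hn : n < 0) (hZ : F T n (i + 1) Z) (hX' : F T n i X) :
    F T n i U := by
  obtain ⟨f, g, d, hl⟩ := hT.localization a b hX h n hn
  exact fg_of_exact (g i).hom (d i).hom (hl i).2.1.exact hX' hZ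

lemma closed (hT : IsEtCoh T) {Z X U : Sch ℤ} (a : Z ⟶ X) (b : U ⟶ X) (hX : FT True X)
    (h : IsTriple a b) {n i : ℤ} (hn : n < 0) (hX' : F T n (i + 1) X) (hU : F T n i U) :
    F T n (i + 1) Z := by
  obtain ⟨f, g, d, hl⟩ := hT.localization a b hX h n hn
  exact fg_of_exact (d i).hom (f (i + 1)).hom (hl i).2.2.exact hU hX'

lemma iso_alg (hT : IsEtCoh T) {A B : Type} [CommRing A] [CommRing B] [Algebra ℤ A] [Algebra ℤ B]
    [Algebra.FiniteType ℤ A] (e : A ≃ₐ[ℤ] B) {n i : ℤ} (hn : n < 0) (h : F T n i (aff ℤ A)) :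
    F T n i (aff ℤ B) :=
  fg_equiv (hT.iso (ft_aff True) ⟨(affIso e).symm⟩ n hn i) h

/-- from `X × 𝔾_m` to `X` in the same weight: the degree goes up -/
lemma torus_up (hT : IsEtCoh T) (A : Type) [CommRing A] [Algebra ℤ A] [Algebra.FiniteType ℤ A]
    {n i : ℤ} (hn : n < 0) (h : F T n i (aff ℤ (LaurentPolynomial A))) :
    F T n (i + 1) (aff ℤ A) := by
  obtain ⟨f, g, -, -, hg⟩ := hT.torus A n hn i
  exact fg_of_surj g.hom hg h

/-- reduction to the affine case in one weight and one degree -/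
lemma all_of_affine (hT : IsEtCoh T) {n i : ℤ} (hn : n < 0)
    (h : ∀ (A : Type) [CommRing A] [Algebra ℤ A] [Algebra.FiniteType ℤ A], F T n i (aff ℤ A))
    (X : Sch ℤ) (hX : FT True X) : F T n i X :=
  of_affine' (sep := True) (P := F T n i) (fun hX e h => fg_equiv (hT.iso hX e n hn i) h)
    (fun a b hX ht hZ hU => total hT a b hX ht hn hZ hU) h X hX

/-- one degree in the weight `-1` for all affine schemes decides all higher degrees -/
lemma up (hT : IsEtCoh T) {n : ℤ} (hn : n < 0) {i : ℤ}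
    (h : ∀ (A : Type) [CommRing A] [Algebra ℤ A] [Algebra.FiniteType ℤ A], F T n i (aff ℤ A))
    (k : ℕ) (A : Type) [CommRing A] [Algebra ℤ A] [Algebra.FiniteType ℤ A] :
    F T n (i + k) (aff ℤ A) := by
  induction k generalizing A with
  | zero =>
    rw [Nat.cast_zero, add_zero]
    exact h A
  | succ k ih =>
    have hf : Algebra.FiniteType ℤ (LaurentPolynomial A) := ft_laurent (R := ℤ) A
    have h1 := torus_up hT A hn (ih (LaurentPolynomial A))
    rwa [add_assoc] at h1

/-- the weight `-1` decides all negative weights -/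
lemma down (hT : IsEtCoh T)
    (h : ∀ (A : Type) [CommRing A] [Algebra ℤ A] [Algebra.FiniteType ℤ A] (i : ℤ),
      F T (-1) i (aff ℤ A)) (k : ℕ) :
    ∀ (A : Type) [CommRing A] [Algebra ℤ A] [Algebra.FiniteType ℤ A] (i : ℤ),
      F T (-1 - k) i (aff ℤ A) := by
  induction k with
  | zero =>
    intro A _ _ _ i
    rw [Nat.cast_zero, sub_zero]
    exact h A i
  | succ k ih =>
    intro A _ _ _ i
    have hn : (-1 - (k : ℤ)) < 0 := by omega
    have h1 := fg_equiv (hT.line A (-1 - k) hn (i - 2)) (ih (Polynomial A) (i - 2))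
    have h2 : (-1 - (k : ℤ) - 1) = -1 - ((k + 1 : ℕ) : ℤ) := by push_cast; ring
    rwa [sub_add_cancel, h2] at h1

/-- The conjecture follows from the weight `-1` and arbitrarily negative degrees. -/
theorem conj_of (hT : IsEtCoh T)
    (h : ∀ N : ℤ, ∃ i ≤ N, ∀ (A : Type) [CommRing A] [Algebra ℤ A] [Algebra.FiniteType ℤ A],
      F T (-1) i (aff ℤ A)) : Conjecture T := by
  have h1 : ∀ (A : Type) [CommRing A] [Algebra ℤ A] [Algebra.FiniteType ℤ A] (i : ℤ),
      F T (-1) i (aff ℤ A) := by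
    intro A _ _ _ i
    obtain ⟨j, hj, h2⟩ := h i
    have h3 := up hT (by norm_num) h2 (i - j).toNat A
    have h4 : j + ((i - j).toNat : ℤ) = i := by
      rw [Int.toNat_of_nonneg (by omega)]
      ring
    rwa [h4] at h3
  intro X hX n hn i
  refine all_of_affine hT hn ?_ X hX
  intro A _ _ _
  have h2 := down hT h1 (-1 - n).toNat A i
  have h3 : -1 - ((-1 - n).toNat : ℤ) = n := by
    rw [Int.toNat_of_nonneg (by omega)]
    ring
  rwa [h3] at h2

section Bilinear

/-- the bilinear forms with at most three terms and coefficients `1` -/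
def bilThree (β γ : Type) [Fintype β] [Fintype γ] : Set (MvPolynomial (β ⊕ γ) ℤ) :=
  {f | ∃ t : β → γ → ℤ, (∀ j k, t j k ∈ ({0, 1} : Set ℤ)) ∧
    (Finset.univ.filter fun h : β × γ => t h.1 h.2 = 1).card ≤ 3 ∧ bil β γ t = f}

lemma single_three {β γ : Type} [Fintype β] [Fintype γ] (j : β) (k : γ) :
    (X (Sum.inl j) * X (Sum.inr k) : MvPolynomial (β ⊕ γ) ℤ) ∈ bilThree β γ := by
  classical
  refine ⟨_, fun a b => ?_, ?_, bil_single j k⟩
  · split_ifs
    · exact Or.inr rfl
    · exact Or.inl rfl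
  · refine (Finset.card_le_card (t := {(j, k)}) ?_).trans
      ((Finset.card_singleton _).le.trans (by norm_num))
    intro h hh
    have h1 := (Finset.mem_filter.mp hh).2
    have h2 : h.1 = j ∧ h.2 = k := by
      by_contra h3
      rw [if_neg h3] at h1
      exact zero_ne_one h1
    rw [Finset.mem_singleton]
    exact Prod.ext h2.1 h2.2

lemma pair_three {β γ : Type} [Fintype β] [Fintype γ] (j : β) (k : γ) (j' : β) (k' : γ)
    (h : ¬ (j = j' ∧ k = k')) :
    (X (Sum.inl j) * X (Sum.inr k) + X (Sum.inl j') * X (Sum.inr k') :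
      MvPolynomial (β ⊕ γ) ℤ) ∈ bilThree β γ := by
  classical
  refine ⟨_, fun a b => ?_, ?_, bil_pair j k j' k' h⟩
  · split_ifs
    · exact Or.inr rfl
    · exact Or.inl rfl
  · refine (Finset.card_le_card (t := {(j, k), (j', k')}) ?_).trans
      (Finset.card_le_two.trans (by norm_num))
    intro h hh
    have h1 := (Finset.mem_filter.mp hh).2
    have h2 : (h.1 = j ∧ h.2 = k) ∨ (h.1 = j' ∧ h.2 = k') := by
      by_contra h3
      rw [if_neg h3] at h1
      exact zero_ne_one h1
    rw [Finset.mem_insert, Finset.mem_singleton]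
    rcases h2 with h2 | h2
    · exact Or.inl (Prod.ext h2.1 h2.2)
    · exact Or.inr (Prod.ext h2.1 h2.2)

lemma zero_three {β γ : Type} [Fintype β] [Fintype γ] :
    (0 : MvPolynomial (β ⊕ γ) ℤ) ∈ bilThree β γ := by
  refine ⟨0, fun _ _ => Or.inl rfl, ?_, map_zero _⟩
  have h : (Finset.univ.filter fun h : β × γ => (0 : β → γ → ℤ) h.1 h.2 = 1) = ∅ := by
    rw [Finset.filter_eq_empty_iff]
    intro h _ h1
    exact zero_ne_one h1
  rw [h, Finset.card_empty]
  norm_num

lemma linear_three {β γ : Type} [Fintype β] [Fintype γ] (c : β → ℤ)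
    (hc : ∀ j, c j ∈ ({0, 1} : Set ℤ)) (hc3 : (Finset.univ.filter fun j => c j = 1).card ≤ 3)
    (k : γ) : (∑ j, C (c j) * (X (Sum.inl j) * X (Sum.inr k)) : MvPolynomial (β ⊕ γ) ℤ) ∈
      bilThree β γ := by
  classical
  refine ⟨fun j k' => if k' = k then c j else 0, fun j k' => ?_, ?_, ?_⟩
  · dsimp only
    split_ifs
    · exact hc j
    · exact Or.inl rfl
  · refine le_trans ?_ hc3
    refine Finset.card_le_card_of_injOn (fun h => h.1) ?_ ?_
    · intro h hh
      have h1 := (Finset.mem_filter.mp hh).2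
      dsimp only at h1
      split_ifs at h1 with h2
      · exact Finset.mem_coe.mpr (Finset.mem_filter.mpr ⟨Finset.mem_univ _, h1⟩)
      · exact absurd h1 zero_ne_one
    · intro h hh h' hh' e
      have h1 := (Finset.mem_filter.mp (Finset.mem_coe.mp hh)).2
      have h1' := (Finset.mem_filter.mp (Finset.mem_coe.mp hh')).2
      dsimp only at h1 h1'
      split_ifs at h1 with h2
      · split_ifs at h1' with h2'
        · exact Prod.ext e (h2.trans h2'.symm)
        · exact absurd h1' zero_ne_one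
      · exact absurd h1 zero_ne_one
  · rw [bil_apply]
    apply Finset.sum_congr rfl
    intro j _
    rw [Finset.sum_eq_single k]
    · rw [if_pos rfl, mul_assoc]
    · intro k' _ hk'
      rw [if_neg hk', map_zero, zero_mul, zero_mul]
    · intro h
      exact absurd (Finset.mem_univ k) h

lemma eqs_three {n D : ℕ} (hD : 1 ≤ D) (G : Finset (MvPolynomial (Fin n) ℤ))
    (hG : ∀ g ∈ G, IsShort g) (k : Mon n D ⊕ (Mon n D × Fin n) ⊕ G) :
    eqs hD G k ∈ bilThree (Mon n D) (Mon n D) := by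
  classical
  rcases k with m | ⟨m, i⟩ | g
  · rw [eqs_lin]
    split_ifs with h
    · exact zero_three
    · exact pair_three _ _ _ _ fun h2 => h h2.1
  · rw [eqs_mul]
    split_ifs with h
    · exact pair_three _ _ _ _ fun h2 => me_ne hD i h2.2
    · exact zero_three
  · obtain ⟨Q, hQ, hg⟩ := hG g.1 g.2
    refine linear_three (fun m : Mon n D => coeff m.1 g.1) (fun m => ?_) ?_ _
    · rw [hg]
      exact coeff_ms_mem Q m.1
    · refine le_trans ?_ hQ
      refine Finset.card_le_card_of_injOn (fun m : Mon n D => m.1) ?_ ?_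
      · intro m hm
        have h1 := (Finset.mem_filter.mp (Finset.mem_coe.mp hm)).2
        rw [hg, coeff_ms] at h1
        change m.1 ∈ Q
        by_contra h2
        rw [if_neg h2] at h1
        exact zero_ne_one h1
      · intro m _ m' _ e
        exact Subtype.ext e

variable {N : ℤ} (hB : ∀ (a b c : ℕ) (H : Fin a → Finset (Fin b × Fin c)), Short H → ∀ i ≤ N,
  F T (-1) i (bilS H))

lemma rename_bil {β γ : Type} [Fintype β] [Fintype γ] {b c : ℕ} (eb : β ≃ Fin b) (ec : γ ≃ Fin c)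
    (t : β → γ → ℤ) (ht : ∀ j k, t j k ∈ ({0, 1} : Set ℤ)) :
    rename (Equiv.sumCongr eb ec) (bil β γ t) =
      ∑ h ∈ Finset.univ.filter (fun h : Fin b × Fin c => t (eb.symm h.1) (ec.symm h.2) = 1),
        (X (Sum.inl h.1) * X (Sum.inr h.2) : MvPolynomial (Fin b ⊕ Fin c) ℤ) := by
  classical
  rw [bil_apply, map_sum, Finset.sum_filter, Fintype.sum_prod_type]
  rw [← eb.symm.sum_comp]
  apply Finset.sum_congr rfl
  intro j _
  rw [map_sum, ← ec.symm.sum_comp]
  apply Finset.sum_congr rfl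
  intro k _
  rw [map_mul, map_mul, rename_C, rename_X, rename_X]
  change C _ * X (Sum.inl (eb (eb.symm j))) * X (Sum.inr (ec (ec.symm k))) = _
  rw [eb.apply_symm_apply, ec.apply_symm_apply]
  split_ifs with h
  · rw [h, map_one, one_mul]
  · rcases ht (eb.symm j) (ec.symm k) with h1 | h1
    · rw [h1, map_zero, zero_mul, zero_mul]
    · exact absurd h1 h

include hB in
lemma of_bil (hT : IsEtCoh T) {β γ κ : Type} [Fintype β] [Fintype γ] [Fintype κ]
    (f : κ → MvPolynomial (β ⊕ γ) ℤ) (hf : ∀ k, f k ∈ bilThree β γ) (i : ℤ)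
    (hi : i ≤ N) : F T (-1) i (aff ℤ (MvPolynomial (β ⊕ γ) ℤ ⧸ Ideal.span (Set.range f))) := by
  classical
  choose t ht0 ht3 ht using hf
  let ek := Fintype.equivFin κ
  let eb := Fintype.equivFin β
  let ec := Fintype.equivFin γ
  let H : Fin (Fintype.card κ) → Finset (Fin (Fintype.card β) × Fin (Fintype.card γ)) := fun k =>
    Finset.univ.filter fun h => t (ek.symm k) (eb.symm h.1) (ec.symm h.2) = 1
  have hS : Short H := by
    intro k
    refine le_trans ?_ (ht3 (ek.symm k))
    refine Finset.card_le_card_of_injOn (fun h => (eb.symm h.1, ec.symm h.2)) ?_ ?_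
    · intro h hh
      exact Finset.mem_coe.mpr (Finset.mem_filter.mpr ⟨Finset.mem_univ _,
        (Finset.mem_filter.mp (Finset.mem_coe.mp hh)).2⟩)
    · intro h _ h' _ e
      exact Prod.ext (eb.symm.injective (Prod.ext_iff.mp e).1)
        (ec.symm.injective (Prod.ext_iff.mp e).2)
  have h1 := hB _ _ _ H hS i hi
  let E : MvPolynomial (β ⊕ γ) ℤ ≃ₐ[ℤ] MvPolynomial (Fin (Fintype.card β) ⊕ Fin (Fintype.card γ)) ℤ :=
    renameEquiv ℤ (Equiv.sumCongr eb ec)
  have h2 : Ideal.span (Set.range (bilEq H)) = Ideal.map (E : _ →+* _) (Ideal.span (Set.range f)) := by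
    rw [Ideal.map_span, ← Set.range_comp]
    congr 1
    have h3 : ∀ k, (E : _ →+* _) (f k) = bilEq H (ek k) := by
      intro k
      rw [← ht k]
      change rename (Equiv.sumCongr eb ec) (bil β γ (t k)) = _
      rw [rename_bil eb ec (t k) (ht0 k)]
      change _ = ∑ h ∈ Finset.univ.filter (fun h : Fin _ × Fin _ =>
        t (ek.symm (ek k)) (eb.symm h.1) (ec.symm h.2) = 1), _
      rw [ek.symm_apply_apply]
    have h4 : (⇑(E : _ →+* _) ∘ f) = bilEq H ∘ ek := funext h3
    rw [h4, Set.range_comp, ek.range_eq_univ, Set.image_univ]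
  exact iso_alg hT (Ideal.quotientEquivAlg _ _ E h2).symm (by norm_num) h1

include hB in
/-- the affine case, for very negative degrees -/
lemma affine (hT : IsEtCoh T) (A : Type) [CommRing A] [Algebra ℤ A] [Algebra.FiniteType ℤ A]
    (i : ℤ) (hi : i + 1 ≤ N) : F T (-1) (i + 1 + 1) (aff ℤ A) := by
  classical
  obtain ⟨n, φ, G, hs, hK, hc⟩ := presents_three (R := ℤ) (fun n => ⟨n, Int.cast_id⟩) A
  let D : ℕ := 1 + ∑ g ∈ G, ∑ m ∈ g.support, m.degree
  have hD : 1 ≤ D := by omega
  have hd : ∀ g ∈ G, ∀ m ∈ g.support, m.degree ≤ D := by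
    intro g hg m hm
    have h1 : m.degree ≤ ∑ m ∈ g.support, m.degree :=
      Finset.single_le_sum (f := fun m : Fin n →₀ ℕ => m.degree) (fun _ _ => Nat.zero_le _) hm
    have h2 : ∑ m ∈ g.support, m.degree ≤ ∑ g ∈ G, ∑ m ∈ g.support, m.degree :=
      Finset.single_le_sum (f := fun g : MvPolynomial (Fin n) ℤ => ∑ m ∈ g.support, m.degree)
        (fun _ _ => Nat.zero_le _) hg
    omega
  have hG : ∀ g ∈ G, φ g = 0 := by
    intro g hg
    have : g ∈ RingHom.ker φ := by
      rw [hK]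
      exact Ideal.subset_span hg
    exact this
  have hA : F T (-1) i (aff ℤ (Cone hD G)) :=
    of_bil hB hT (eqs hD G) (eqs_three hD G hc) i (by omega)
  let f' : Option (Mon n D ⊕ (Mon n D × Fin n) ⊕ G) → UVRing ℤ n D := fun k =>
    k.elim (uu ℤ (mo n D) * vv ℤ (mo n D)) (eqs hD G)
  have h2 : F T (-1) (i + 1) (aff ℤ (UVRing ℤ n D ⧸ Ideal.span (Set.range f'))) := by
    apply of_bil hB hT f' _ (i + 1) hi
    rintro (_ | k)
    · exact single_three _ _
    · exact eqs_three hD G hc k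
  have h3 : Ideal.span (Set.range f') =
      eqI hD G ⊔ Ideal.span {uu ℤ (mo n D) * vv ℤ (mo n D)} := by
    rw [eqI, ← Ideal.span_union]
    congr 1
    ext x
    constructor
    · rintro ⟨_ | k, rfl⟩
      · exact Or.inr rfl
      · exact Or.inl ⟨k, rfl⟩
    · rintro (⟨k, rfl⟩ | rfl)
      · exact ⟨some k, rfl⟩
      · exact ⟨none, rfl⟩
  rw [h3] at h2
  have hn : (-1 : ℤ) < 0 := by norm_num
  have h4 : F T (-1) (i + 1) (aff ℤ (Cone hD G ⧸ Ideal.span {cw hD G})) := by
    have e := (DoubleQuot.quotQuotEquivQuotSupₐ ℤ (eqI hD G)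
      (Ideal.span {uu ℤ (mo n D) * vv ℤ (mo n D)})).symm
    have h5 := iso_alg (B := Cone hD G ⧸ Ideal.map (Ideal.Quotient.mkₐ ℤ (eqI hD G))
      (Ideal.span {uu ℤ (mo n D) * vv ℤ (mo n D)})) hT e hn h2
    have h6 : Ideal.map (Ideal.Quotient.mkₐ ℤ (eqI hD G))
        (Ideal.span {uu ℤ (mo n D) * vv ℤ (mo n D)}) = Ideal.span {cw hD G} := by
      rw [Ideal.map_span, Set.image_singleton]
      rfl
    rw [← h6]
    exact h5
  have h5 : F T (-1) i (aff ℤ (LCone hD G)) :=
    opened hT _ _ (ft_aff True) (triple_away (cw hD G)) hn h4 hA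
  have h6 : Algebra.FiniteType ℤ (LCone hD G) :=
    Algebra.FiniteType.trans (S := Cone hD G) inferInstance inferInstance
  have h7 := ft_laurent (R := ℤ) A
  exact torus_up hT A hn (torus_up hT _ hn (iso_alg hT (coneEquiv hD G φ hG hd hs hK) hn h5))

include hB in
/-- Reduction to the bilinear varieties, in the weight `-1` and in very negative degrees. -/
theorem conj_of_bil (hT : IsEtCoh T) : Conjecture T := by
  apply conj_of hT
  intro M
  refine ⟨min M (N + 1), min_le_left _ _, ?_⟩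
  intro A _ _ _
  have h1 := affine hB hT A (min M (N + 1) - 2) (by
    have := min_le_right M (N + 1)
    omega)
  have h2 : min M (N + 1) - 2 + 1 + 1 = min M (N + 1) := by ring
  rwa [h2] at h1

end Bilinear

/-- finite generation for the affine spaces, in all negative weights -/
lemma space (hT : IsEtCoh T) (m : ℕ) :
    ∀ n < 0, ∀ i, F T n i (aff ℤ (MvPolynomial (Fin m) ℤ)) := by
  induction m with
  | zero =>
    intro n hn i
    exact iso_alg hT (isEmptyAlgEquiv ℤ (Fin 0)).symm hn (hT.base n hn i)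
  | succ m ih =>
    intro n hn i
    have h1 := fg_equiv' (hT.line (MvPolynomial (Fin m) ℤ) n hn i) (ih (n - 1) (by omega) (i + 2))
    exact iso_alg hT ((finSuccEquiv ℤ m).restrictScalars ℤ).symm hn h1

lemma space' (hT : IsEtCoh T) (b c : ℕ) (n : ℤ) (hn : n < 0) (i : ℤ) :
    F T n i (aff ℤ (MvPolynomial (Fin b ⊕ Fin c) ℤ)) :=
  iso_alg hT (renameEquiv ℤ (Fintype.equivFin (Fin b ⊕ Fin c)).symm) hn (space hT _ n hn i)

lemma triple_bil {a b c : ℕ} (H : Fin a → Finset (Fin b × Fin c)) :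
    IsTriple (affMap (Ideal.Quotient.mkₐ ℤ (Ideal.span (Set.range (bilEq H)))) :
      bilS H ⟶ aff ℤ (MvPolynomial (Fin b ⊕ Fin c) ℤ))
      (opnMap (aff ℤ (MvPolynomial (Fin b ⊕ Fin c) ℤ)) (neOpen ℤ (bilEq H)) :
        bilU H ⟶ aff ℤ (MvPolynomial (Fin b ⊕ Fin c) ℤ)) := by
  refine ⟨closed_affMap _ (Ideal.Quotient.mkₐ_surjective ℤ _),
      inferInstanceAs (IsOpenImmersion (opnMap (aff ℤ (MvPolynomial (Fin b ⊕ Fin c) ℤ))
        (neOpen ℤ (bilEq H))).left), ?_⟩
  have h1 := range_affMap (Ideal.Quotient.mkₐ ℤ (Ideal.span (Set.range (bilEq H))))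
    (Ideal.Quotient.mkₐ_surjective ℤ _)
  have h2 := range_opnMap (aff ℤ (MvPolynomial (Fin b ⊕ Fin c) ℤ)) (neOpen ℤ (bilEq H))
  refine h1.trans ?_
  refine Eq.trans ?_ (congrArg compl h2).symm
  ext x
  change (∀ a, Ideal.Quotient.mk (Ideal.span (Set.range (bilEq H))) a = 0 → a ∈ x.asIdeal) ↔
    ¬ ∃ l, bilEq H l ∉ x.asIdeal
  push Not
  constructor
  · intro h l
    exact h (bilEq H l) (Ideal.Quotient.eq_zero_iff_mem.mpr (Ideal.subset_span ⟨l, rfl⟩))
  · intro h a ha
    rw [Ideal.Quotient.eq_zero_iff_mem] at ha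
    refine (Ideal.span_le.mpr ?_ : Ideal.span (Set.range (bilEq H)) ≤ x.asIdeal) ha
    rintro _ ⟨l, rfl⟩
    exact h l

lemma ft_bilU {a b c : ℕ} (H : Fin a → Finset (Fin b × Fin c)) : FT True (bilU H) := by
  refine ft_opn (ft_aff True) _ ?_
  exact TopologicalSpace.NoetherianSpace.isCompact (α := PrimeSpectrum _) _

/-- from the complement to the bilinear variety -/
lemma bil_of_compl (hT : IsEtCoh T) {a b c : ℕ} (H : Fin a → Finset (Fin b × Fin c)) (i : ℤ)
    (h : F T (-1) i (bilU H)) : F T (-1) (i + 1) (bilS H) :=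
  closed hT _ _ (ft_aff True) (triple_bil H) (by norm_num) (space' hT b c _ (by norm_num) _) h

end Pool.Agent.Y111.WM
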